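import Pool.Agent.K7.H90.DE.F
import Pool.Agent.K7.H23.AT.Stm

/-! Job DE of project AT (MP_d88658_nt). -/

set_option autoImplicit false

namespace Pool.Agent.K7.H90.DE

/-- the numbers composed of the primes modulo which `f` has a root and of primes up to `K` have
density zero -/
theorem stDE : Pool.Agent.K7.H23.AT.StDE := main

end Pool.Agent.K7.H90.DE
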