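import Mathlib

/-! Job DE of project AT (MP_d88658_nt): elementary part.  If the primes with property `Q` have positive
lower density among the primes, the numbers free of large primes with property `Q` have density zero. -/

set_option autoImplicit false

namespace Pool.Agent.K7.H90.DE

open Finset Filter Topology

/-- Abel summation: nonnegative partial sums from `a` on. -/
theorem abel (b : ℕ → ℝ) (a : ℕ) (ha : 1 ≤ a)
    (hB : ∀ N, a ≤ N → 0 ≤ ∑ k ∈ Finset.range (N + 1), b k) :
    ∀ N, a ≤ N →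
      (∑ k ∈ Finset.range (a + 1), b k / k) - (∑ k ∈ Finset.range (a + 1), b k) / a ≤
        ∑ k ∈ Finset.range (N + 1), b k / k := by
  have key : ∀ N, a ≤ N →
      (∑ k ∈ Finset.range (a + 1), b k / k) - (∑ k ∈ Finset.range (a + 1), b k) / a ≤
      (∑ k ∈ Finset.range (N + 1), b k / k) - (∑ k ∈ Finset.range (N + 1), b k) / N := by
    intro N hN
    induction N, hN using Nat.le_induction with
    | base => exact le_rfl
    | succ N hN ih =>
      refine ih.trans ?_
      rw [Finset.sum_range_succ _ (N + 1), Finset.sum_range_succ _ (N + 1)]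
      have h0 := hB N hN
      have hN0 : (0 : ℝ) < N := by exact_mod_cast (by omega : 0 < N)
      have hN1 : (0 : ℝ) < (N + 1 : ℕ) := by exact_mod_cast Nat.succ_pos N
      have h1 : (∑ k ∈ Finset.range (N + 1), b k) / (N + 1 : ℕ) ≤
          (∑ k ∈ Finset.range (N + 1), b k) / N := by
        apply div_le_div_of_nonneg_left h0 hN0
        push_cast; linarith
      rw [add_div]
      linarith
  intro N hN
  refine (key N hN).trans ?_
  have : 0 ≤ (∑ k ∈ Finset.range (N + 1), b k) / (N : ℝ) := div_nonneg (hB N hN) (Nat.cast_nonneg _)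
  linarith

/-- the sum of the reciprocals diverges over a set of primes of positive lower density -/
theorem div_of_dens (Q : ℕ → Prop) [DecidablePred Q] {δ : ℝ} (hδ : 0 < δ) (a : ℕ)
    (h : ∀ N, a ≤ N → δ * (Nat.primeCounting N : ℝ) ≤
      ((((range (N + 1)).filter Nat.Prime).filter Q).card : ℝ)) (K : ℕ) (B : ℝ) :
    ∃ P : Finset ℕ, (∀ p ∈ P, p.Prime ∧ Q p ∧ K < p) ∧ B ≤ ∑ p ∈ P, (1 : ℝ) / p := by
  classical
  set pi : ℕ → ℝ := fun k => if k.Prime then 1 else 0 with hpi
  set qi : ℕ → ℝ := fun k => if k.Prime ∧ Q k then 1 else 0 with hqi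
  set b : ℕ → ℝ := fun k => qi k - δ * pi k with hb
  have hB : ∀ N, a + 1 ≤ N → 0 ≤ ∑ k ∈ range (N + 1), b k := by
    intro N hN
    have e1 : ∑ k ∈ range (N + 1), pi k = (Nat.primeCounting N : ℝ) := by
      rw [hpi]
      simp only
      rw [Finset.sum_ite]
      simp only [Finset.sum_const_zero, add_zero, Finset.sum_const, nsmul_eq_mul, mul_one]
      unfold Nat.primeCounting Nat.primeCounting'
      rw [Nat.count_eq_card_filter_range]
    have e2 : ∑ k ∈ range (N + 1), qi k =
        ((((range (N + 1)).filter Nat.Prime).filter Q).card : ℝ) := by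
      rw [hqi, Finset.filter_filter]
      simp only
      rw [Finset.sum_ite]
      simp only [Finset.sum_const_zero, add_zero, Finset.sum_const, nsmul_eq_mul, mul_one]
    rw [hb, Finset.sum_sub_distrib, ← Finset.mul_sum, e1, e2]
    have := h N (by omega)
    linarith
  have hA := abel b (a + 1) (by omega) hB
  set T : ℝ := (∑ k ∈ Finset.range (a + 1 + 1), b k / k) -
    (∑ k ∈ Finset.range (a + 1 + 1), b k) / ((a + 1 : ℕ) : ℝ) with hT
  have hdiv : Tendsto (fun n => ∑ k ∈ range n, pi k / k) atTop atTop := by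
    have h1 := Nat.Primes.not_summable_one_div
    have h2 := not_summable_one_div_on_primes
    have h3 : ¬ Summable fun k : ℕ => pi k / k := by
      intro hs
      apply h2
      refine hs.congr fun k => ?_
      by_cases hk : k.Prime
      · simp [hpi, Set.indicator, hk]
      · simp [hpi, Set.indicator, hk]
    rw [not_summable_iff_tendsto_nat_atTop_of_nonneg] at h3
    · exact h3
    · intro k
      rw [hpi]
      simp only
      split_ifs <;> positivity
  obtain ⟨n0, hn0⟩ := (hdiv.eventually_ge_atTop ((B + (K + 1) - T) / δ)).exists_forall_of_atTop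
  set N := max n0 (max (a + 1) K) with hN
  have h1 := hn0 (N + 1) (by omega)
  have h2 := hA N (by omega)
  refine ⟨((range (N + 1)).filter fun p => p.Prime ∧ Q p).filter fun p => K < p, ?_, ?_⟩
  · intro p hp
    rw [mem_filter, mem_filter] at hp
    exact ⟨hp.1.2.1, hp.1.2.2, hp.2⟩
  · have e1 : ∑ k ∈ range (N + 1), b k / k =
        (∑ k ∈ range (N + 1), qi k / k) - δ * ∑ k ∈ range (N + 1), pi k / k := by
      rw [hb, Finset.mul_sum, ← Finset.sum_sub_distrib]
      refine Finset.sum_congr rfl fun k _ => ?_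
      ring
    have e2 : ∑ k ∈ range (N + 1), qi k / k =
        ∑ p ∈ (range (N + 1)).filter (fun p => p.Prime ∧ Q p), (1 : ℝ) / p := by
      rw [Finset.sum_filter]
      refine Finset.sum_congr rfl fun k _ => ?_
      rw [hqi]
      simp only
      split_ifs <;> simp
    have e3 : ∑ p ∈ (range (N + 1)).filter (fun p => p.Prime ∧ Q p), (1 : ℝ) / p =
        (∑ p ∈ ((range (N + 1)).filter fun p => p.Prime ∧ Q p).filter (fun p => K < p), (1 : ℝ) / p) +
        ∑ p ∈ ((range (N + 1)).filter fun p => p.Prime ∧ Q p).filter (fun p => ¬ K < p), (1 : ℝ) / p :=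
      (Finset.sum_filter_add_sum_filter_not _ _ _).symm
    have e4 : ∑ p ∈ ((range (N + 1)).filter fun p => p.Prime ∧ Q p).filter (fun p => ¬ K < p),
        (1 : ℝ) / p ≤ K + 1 := by
      calc _ ≤ ∑ p ∈ ((range (N + 1)).filter fun p => p.Prime ∧ Q p).filter (fun p => ¬ K < p), (1 : ℝ) := by
            refine Finset.sum_le_sum fun p hp => ?_
            rw [mem_filter, mem_filter] at hp
            have : (1 : ℝ) ≤ p := by exact_mod_cast hp.1.2.1.one_lt.le
            rw [div_le_one (by linarith)]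
            exact this
        _ = ((((range (N + 1)).filter fun p => p.Prime ∧ Q p).filter (fun p => ¬ K < p)).card : ℝ) := by
            simp
        _ ≤ ((range (K + 1)).card : ℝ) := by
            norm_cast
            refine Finset.card_le_card fun p hp => ?_
            rw [mem_filter, mem_filter] at hp
            rw [mem_range]
            omega
        _ = K + 1 := by simp
    have h3 : B + (K + 1) - T ≤ δ * ∑ k ∈ range (N + 1), pi k / k := by
      rw [div_le_iff₀ hδ] at h1
      linarith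
    linarith

/-- the numbers without large prime factors with property `Q` have density zero -/
theorem sieve (Q : ℕ → Prop) (K : ℕ)
    (hdiv : ∀ B : ℝ, ∃ P : Finset ℕ, (∀ p ∈ P, p.Prime ∧ Q p ∧ K < p) ∧ B ≤ ∑ p ∈ P, (1 : ℝ) / p)
    {ε : ℝ} (hε : 0 < ε) :
    ∃ N₀ : ℕ, ∀ N : ℕ, N₀ ≤ N →
      (Set.ncard {D : ℕ | 1 ≤ D ∧ D ≤ N ∧ ∀ p : ℕ, p.Prime → p ∣ D → K < p → ¬ Q p} : ℝ) ≤ ε * N := by
  classical
  -- choose `P`
  obtain ⟨P, hP, hPs⟩ := hdiv (-Real.log (ε / 2))
  set m : ℕ := ∏ p ∈ P, p with hm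
  have hm0 : 0 < m := Finset.prod_pos fun p hp => (hP p hp).1.pos
  have hprod : (Nat.totient m : ℝ) = m * ∏ p ∈ P, (1 - (p : ℝ)⁻¹) := by
    have h1 : Nat.totient m = ∏ p ∈ P, (p - 1) := by
      rw [hm]
      clear_value m
      clear hPs hm hm0
      induction P using Finset.induction_on with
      | empty => simp
      | insert q s hq ih =>
        rw [Finset.prod_insert hq, Finset.prod_insert hq, Nat.totient_mul,
          Nat.totient_prime (hP q (mem_insert_self _ _)).1,
          ih fun p hp => hP p (mem_insert_of_mem hp)]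
        apply Nat.Coprime.prod_right
        intro p hp
        refine (Nat.coprime_primes (hP q (mem_insert_self _ _)).1 (hP p (mem_insert_of_mem hp)).1).2 ?_
        rintro rfl
        exact hq hp
    rw [h1, hm]
    push_cast
    rw [← Finset.prod_mul_distrib]
    refine Finset.prod_congr rfl fun p hp => ?_
    have h2 : 1 ≤ p := (hP p hp).1.one_lt.le
    have h3 : (p : ℝ) ≠ 0 := by exact_mod_cast (hP p hp).1.ne_zero
    push_cast [h2]
    field_simp
  have hsmall : ∏ p ∈ P, (1 - (p : ℝ)⁻¹) ≤ ε / 2 := by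
    calc ∏ p ∈ P, (1 - (p : ℝ)⁻¹) ≤ ∏ p ∈ P, Real.exp (-(p : ℝ)⁻¹) := by
          refine Finset.prod_le_prod (fun p hp => ?_) fun p _ => ?_
          · have : (1 : ℝ) ≤ p := by exact_mod_cast (hP p hp).1.one_lt.le
            have := inv_le_one_of_one_le₀ this
            linarith
          · have := Real.add_one_le_exp (-(p : ℝ)⁻¹)
            linarith
      _ = Real.exp (-∑ p ∈ P, (p : ℝ)⁻¹) := by
          rw [← Real.exp_sum, Finset.sum_neg_distrib]
      _ ≤ Real.exp (Real.log (ε / 2)) := by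
          apply Real.exp_le_exp.2
          have : ∑ p ∈ P, (1 : ℝ) / p = ∑ p ∈ P, (p : ℝ)⁻¹ :=
            Finset.sum_congr rfl fun p _ => one_div _
          rw [this] at hPs
          linarith
      _ = ε / 2 := Real.exp_log (by positivity)
  refine ⟨m, fun N hN => ?_⟩
  have hsub : {D : ℕ | 1 ≤ D ∧ D ≤ N ∧ ∀ p : ℕ, p.Prime → p ∣ D → K < p → ¬ Q p} ⊆
      (((Finset.Ico 1 (1 + N)).filter (fun x => m.Coprime x) : Finset ℕ) : Set ℕ) := by
    rintro D ⟨h1, h2, h3⟩
    rw [mem_coe, mem_filter, mem_Ico]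
    refine ⟨⟨h1, by omega⟩, ?_⟩
    rw [hm]
    apply Nat.Coprime.prod_left
    intro p hp
    rw [Nat.Prime.coprime_iff_not_dvd (hP p hp).1]
    intro hpD
    exact h3 p (hP p hp).1 hpD (hP p hp).2.2 (hP p hp).2.1
  have h1 : Set.ncard {D : ℕ | 1 ≤ D ∧ D ≤ N ∧ ∀ p : ℕ, p.Prime → p ∣ D → K < p → ¬ Q p} ≤
      Nat.totient m * (N / m + 1) := by
    calc _ ≤ Set.ncard (((Finset.Ico 1 (1 + N)).filter (fun x => m.Coprime x) : Finset ℕ) : Set ℕ) :=
          Set.ncard_le_ncard hsub (Finset.finite_toSet _)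
      _ = ((Finset.Ico 1 (1 + N)).filter (fun x => m.Coprime x)).card := Set.ncard_coe_finset _
      _ ≤ Nat.totient m * (N / m + 1) := Nat.Ico_filter_coprime_le 1 N hm0.ne'
  have h2 : ((Nat.totient m * (N / m + 1) : ℕ) : ℝ) ≤ ε * N := by
    push_cast
    have h3 : ((N / m : ℕ) : ℝ) ≤ (N : ℝ) / m := Nat.cast_div_le
    have hmr : (0 : ℝ) < m := by exact_mod_cast hm0
    have h4 : (Nat.totient m : ℝ) ≤ m * (ε / 2) := by
      rw [hprod]
      exact mul_le_mul_of_nonneg_left hsmall hmr.le
    have h5 : (m : ℝ) ≤ N := by exact_mod_cast hN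
    calc (Nat.totient m : ℝ) * (((N / m : ℕ) : ℝ) + 1) ≤ (m * (ε / 2)) * ((N : ℝ) / m + 1) := by
          apply mul_le_mul h4 (by linarith) (by positivity) (by positivity)
      _ = ε / 2 * N + m * (ε / 2) := by field_simp
      _ ≤ ε * N := by nlinarith
  calc _ ≤ ((Nat.totient m * (N / m + 1) : ℕ) : ℝ) := by exact_mod_cast h1
    _ ≤ ε * N := h2

end Pool.Agent.K7.H90.DE
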