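import Mathlib

/-! Job DE of project AT (MP_d88658_nt): Galois theory.  An irreducible polynomial of degree at least two
has an element without fixed root in its Galois group. -/

set_option autoImplicit false

namespace Pool.Agent.K7.H90.DE

open Polynomial NumberField MulAction

/-- Burnside: a transitive action on at least two points has an element without fixed point -/
theorem exists_derangement {G X : Type*} [Group G] [Finite G] [MulAction G X] [Finite X]
    [IsPretransitive G X] (h : 2 ≤ Nat.card X) : ∃ g : G, ∀ x : X, g • x ≠ x := by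
  classical
  have := Fintype.ofFinite G
  have := Fintype.ofFinite X
  by_contra hcon
  push Not at hcon
  have hne : Nonempty X := by
    rw [← not_isEmpty_iff]
    intro he
    rw [Nat.card_eq_zero.2 (Or.inl he)] at h
    omega
  have h1 : Fintype.card (Quotient (orbitRel G X)) = 1 := by
    rw [Fintype.card_eq_one_iff_nonempty_unique]
    refine ⟨⟨⟨Quotient.mk'' hne.some⟩, fun a => ?_⟩⟩
    induction a using Quotient.inductionOn' with
    | h a =>
      apply Quotient.sound'
      rw [orbitRel_apply, mem_orbit_iff]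
      exact exists_smul_eq G _ _
  have h2 := sum_card_fixedBy_eq_card_orbits_mul_card_group G X
  rw [h1, one_mul] at h2
  have h3 : ∀ g : G, 1 ≤ Fintype.card (fixedBy X g) := by
    intro g
    obtain ⟨x, hx⟩ := hcon g
    exact Fintype.card_pos_iff.2 ⟨⟨x, hx⟩⟩
  have h4 : 2 ≤ Fintype.card (fixedBy X (1 : G)) := by
    have : Fintype.card (fixedBy X (1 : G)) = Nat.card X := by
      rw [Nat.card_eq_fintype_card]
      refine Fintype.card_congr ⟨fun x => x.1, fun x => ⟨x, one_smul _ _⟩, fun x => rfl, fun x => rfl⟩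
    omega
  have h5 : ∑ g : G, 1 < ∑ g : G, Fintype.card (fixedBy X g) := by
    refine Finset.sum_lt_sum (fun g _ => h3 g) ⟨1, Finset.mem_univ _, ?_⟩
    omega
  rw [h2] at h5
  simp at h5

/-- factorisation over the ring of integers -/
theorem split_ring (f : ℤ[X]) (hf : f.Monic) (L : Type) [Field L] [NumberField L]
    (hs : (f.map (Int.castRingHom L)).Splits) :
    ∃ t : Multiset (𝓞 L), f.map (Int.castRingHom (𝓞 L)) = (t.map fun a => X - C a).prod := by
  have h1 := hs.eq_prod_roots_of_monic (hf.map _)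
  have h2 : ∀ x ∈ (f.map (Int.castRingHom L)).roots, IsIntegral ℤ x := by
    intro x hx
    refine ⟨f, hf, ?_⟩
    have := (Polynomial.mem_roots'.1 hx).2
    rw [Polynomial.IsRoot.def, Polynomial.eval_map] at this
    exact this
  have h3 : ∃ t : Multiset (𝓞 L), t.map (algebraMap (𝓞 L) L) = (f.map (Int.castRingHom L)).roots := by
    have h4 : ∀ x : {x // x ∈ (f.map (Int.castRingHom L)).roots}, ∃ y : 𝓞 L, algebraMap (𝓞 L) L y = x.1 :=
      fun x => ⟨⟨x.1, h2 x.1 x.2⟩, rfl⟩
    choose g hg using h4
    refine ⟨(f.map (Int.castRingHom L)).roots.attach.map g, ?_⟩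
    rw [Multiset.map_map]
    conv_rhs => rw [← Multiset.attach_map_val (f.map (Int.castRingHom L)).roots]
    exact Multiset.map_congr rfl fun x _ => hg x
  obtain ⟨t, ht⟩ := h3
  refine ⟨t, ?_⟩
  apply Polynomial.map_injective (algebraMap (𝓞 L) L) RingOfIntegers.coe_injective
  rw [Polynomial.map_map, Polynomial.map_multiset_prod, Multiset.map_map]
  have e1 : (algebraMap (𝓞 L) L).comp (Int.castRingHom (𝓞 L)) = Int.castRingHom L :=
    RingHom.ext_int _ _
  rw [e1, h1, ← ht, Multiset.map_map]
  simp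

/-- an element of the Galois group without fixed root -/
theorem exists_sigma (f : ℤ[X]) (hf : f.Monic) (hirr : Irreducible f) (hdeg : 2 ≤ f.natDegree)
    (L : Type) [Field L] [NumberField L] [IsGalois ℚ L]
    (hs : (f.map (Int.castRingHom L)).Splits) :
    ∃ σ : Gal(L/ℚ), ∀ θ : 𝓞 L, Polynomial.aeval θ f = 0 → σ • θ ≠ θ := by
  classical
  set F : ℚ[X] := f.map (Int.castRingHom ℚ) with hF
  have hFm : F.Monic := hf.map _
  have hFirr : Irreducible F :=
    (Polynomial.IsPrimitive.Int.irreducible_iff_irreducible_map_cast hf.isPrimitive).1 hirr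
  have hFdeg : F.natDegree = f.natDegree := hf.natDegree_map _
  have hFL : F.map (algebraMap ℚ L) = f.map (Int.castRingHom L) := by
    rw [hF, Polynomial.map_map]
    congr 1
    exact RingHom.ext_int _ _
  have hFs : (F.map (algebraMap ℚ L)).Splits := by rw [hFL]; exact hs
  let X₀ : Type := {x : L // aeval x F = 0}
  let _ : MulAction Gal(L/ℚ) X₀ :=
    { smul := fun σ x => ⟨σ x.1, by
        rw [Polynomial.aeval_algEquiv, AlgHom.comp_apply, x.2]; simp⟩
      one_smul := fun x => rfl
      mul_smul := fun σ τ x => rfl }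
  have hmem : ∀ x : L, x ∈ F.rootSet L ↔ aeval x F = 0 := by
    intro x
    rw [Polynomial.mem_rootSet_of_ne hFm.ne_zero]
  have hcard : Nat.card X₀ = f.natDegree := by
    have h1 : Fintype.card (F.rootSet L) = F.natDegree :=
      Polynomial.card_rootSet_eq_natDegree hFirr.separable hFs
    rw [← hFdeg, ← h1, ← Nat.card_eq_fintype_card]
    refine Nat.card_congr ⟨fun x => ⟨x.1, (hmem _).2 x.2⟩, fun x => ⟨x.1, (hmem _).1 x.2⟩,
      fun x => rfl, fun x => rfl⟩
  have : Finite X₀ := Nat.finite_of_card_ne_zero (by omega)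
  have : IsPretransitive Gal(L/ℚ) X₀ := by
    refine ⟨fun x y => ?_⟩
    have hmin : minpoly ℚ y.1 = F := (minpoly.eq_of_irreducible_of_monic hFirr y.2 hFm).symm
    have hy : IsAlgebraic ℚ y.1 := Algebra.IsAlgebraic.isAlgebraic _
    obtain ⟨σ, hσ⟩ := minpoly.exists_algEquiv_of_root (L := L) hy (x := x.1) (by rw [hmin]; exact x.2)
    exact ⟨σ, Subtype.ext hσ⟩
  obtain ⟨σ, hσ⟩ := exists_derangement (G := Gal(L/ℚ)) (X := X₀) (by omega)
  refine ⟨σ, fun θ hθ h => ?_⟩
  have h1 : aeval (θ : L) F = 0 := by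
    rw [hF, Polynomial.aeval_def, Polynomial.eval₂_map]
    have h2 : (algebraMap ℚ L).comp (Int.castRingHom ℚ) = (algebraMap (𝓞 L) L).comp (algebraMap ℤ (𝓞 L)) :=
      RingHom.ext_int _ _
    rw [h2, ← Polynomial.hom_eval₂, ← Polynomial.aeval_def, hθ, map_zero]
  refine hσ ⟨(θ : L), h1⟩ (Subtype.ext ?_)
  have := congrArg (algebraMap (𝓞 L) L) h
  exact this

end Pool.Agent.K7.H90.DE
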