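import Pool.Agent.Q202.RT.Dn
import Pool.Agent.K7.H90.DE.A
import Pool.Agent.K7.H90.DE.G

/-! Job DE of project AT (MP_d88658_nt): the primes modulo which `f` has no root have positive density. -/

set_option autoImplicit false

namespace Pool.Agent.K7.H90.DE

open Polynomial NumberField Filter Topology Pool.Agent.W401.Cheb Pool.Agent.Q202.RT

/-- every nonzero element of `𝓞 L` divides a nonzero integer -/
theorem dvd_nat {L : Type} [Field L] [NumberField L] (x : 𝓞 L) (hx : x ≠ 0) :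
    ∃ D : ℕ, 0 < D ∧ x ∣ (D : 𝓞 L) := by
  refine ⟨Ideal.absNorm (Ideal.span {x}), ?_, ?_⟩
  · rw [Nat.pos_iff_ne_zero, Ne, Ideal.absNorm_eq_zero_iff, Ideal.span_singleton_eq_bot]
    exact hx
  · exact Ideal.mem_span_singleton.1 (Ideal.absNorm_mem _)

/-- the reduction is injective on a finite set at almost all primes -/
theorem inj_red {L : Type} [Field L] [NumberField L] (s : Finset (𝓞 L)) :
    ∃ D : ℕ, 0 < D ∧ ∀ (q : ℕ) [Fact q.Prime], ¬ q ∣ D → ∀ φ : 𝓞 L →+* AlgebraicClosure (ZMod q),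
      ∀ x ∈ s, ∀ y ∈ s, φ x = φ y → x = y := by
  classical
  set Δ : 𝓞 L := ∏ z ∈ (s ×ˢ s).filter (fun z => z.1 ≠ z.2), (z.1 - z.2) with hΔ
  have hΔ0 : Δ ≠ 0 := by
    rw [hΔ, Finset.prod_ne_zero_iff]
    intro z hz
    rw [Finset.mem_filter] at hz
    exact sub_ne_zero.2 hz.2
  obtain ⟨D, hD, hdvd⟩ := dvd_nat Δ hΔ0
  refine ⟨D, hD, fun q hq hqD φ x hx y hy hxy => ?_⟩
  by_contra hne
  have h1 : φ Δ = 0 := by
    rw [hΔ, map_prod]
    refine Finset.prod_eq_zero (i := (x, y)) ?_ ?_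
    · rw [Finset.mem_filter, Finset.mem_product]
      exact ⟨⟨hx, hy⟩, hne⟩
    · rw [map_sub, hxy, sub_self]
  obtain ⟨c, hc⟩ := hdvd
  have h2 : φ (D : 𝓞 L) = 0 := by rw [hc, map_mul, h1, zero_mul]
  rw [map_natCast] at h2
  exact hqD ((CharP.cast_eq_zero_iff (AlgebraicClosure (ZMod q)) q D).1 h2)

/-- roots modulo `q` and fixed roots of the Frobenius elements -/
theorem root_iff (f : ℤ[X]) (L : Type) [Field L] [NumberField L] [IsGalois ℚ L]
    (t : Multiset (𝓞 L)) (ht : f.map (Int.castRingHom (𝓞 L)) = (t.map fun a => X - C a).prod)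
    {q : ℕ} [hq : Fact q.Prime] (φ : 𝓞 L →+* AlgebraicClosure (ZMod q))
    (hinj : ∀ x ∈ t, ∀ y ∈ t, φ x = φ y → x = y) (σ : Gal(L/ℚ)) (hσ : HasFrob q φ σ) :
    (∃ r : ℤ, (q : ℤ) ∣ f.eval r) ↔ ∃ θ ∈ t, σ • θ = θ := by
  have hroot : ∀ θ : 𝓞 L, θ ∈ t ↔ aeval θ f = 0 := by
    intro θ
    have h1 : aeval θ f = (t.map fun a => θ - a).prod := by
      have h2 := congrArg (Polynomial.eval θ) ht
      rw [Polynomial.eval_map, Polynomial.eval_multiset_prod, Multiset.map_map] at h2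
      rw [Polynomial.aeval_def]
      have h3 : algebraMap ℤ (𝓞 L) = Int.castRingHom (𝓞 L) := RingHom.ext_int _ _
      rw [h3, h2]
      simp
    rw [h1, Multiset.prod_eq_zero_iff, Multiset.mem_map]
    constructor
    · intro h; exact ⟨θ, h, sub_self _⟩
    · rintro ⟨a, ha, h⟩
      rw [sub_eq_zero] at h
      rw [h]; exact ha
  have hstab : ∀ θ ∈ t, σ • θ ∈ t := by
    intro θ hθ
    rw [hroot] at hθ ⊢
    have h1 : aeval (σ • θ) f = σ • aeval θ f := by
      rw [Polynomial.aeval_def, Polynomial.aeval_def]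
      have h2 := Polynomial.hom_eval₂ f (algebraMap ℤ (𝓞 L)) (MulSemiringAction.toRingHom Gal(L/ℚ) (𝓞 L) σ) θ
      have h3 : (MulSemiringAction.toRingHom Gal(L/ℚ) (𝓞 L) σ).comp (algebraMap ℤ (𝓞 L)) = algebraMap ℤ (𝓞 L) :=
        RingHom.ext_int _ _
      rw [h3] at h2
      exact h2.symm
    rw [h1, hθ, smul_zero]
  constructor
  · rintro ⟨r, hr⟩
    have h1 : φ ((f.map (Int.castRingHom (𝓞 L))).eval (r : 𝓞 L)) = 0 := by
      have h2 : (f.map (Int.castRingHom (𝓞 L))).eval (r : 𝓞 L) = ((f.eval r : ℤ) : 𝓞 L) := by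
        rw [Polynomial.eval_map]
        have := Polynomial.hom_eval₂ f (RingHom.id ℤ) (Int.castRingHom (𝓞 L)) r
        rw [RingHom.comp_id] at this
        exact this.symm
      rw [h2, map_intCast]
      obtain ⟨k, hk⟩ := hr
      rw [hk]
      push_cast
      have : (q : AlgebraicClosure (ZMod q)) = 0 := CharP.cast_eq_zero _ q
      rw [this, zero_mul]
    rw [ht, Polynomial.eval_multiset_prod, map_multiset_prod, Multiset.prod_eq_zero_iff,
      Multiset.map_map, Multiset.map_map, Multiset.mem_map] at h1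
    obtain ⟨θ, hθ, h2⟩ := h1
    simp only [Function.comp_apply, eval_sub, eval_X, eval_C, map_sub, map_intCast] at h2
    rw [sub_eq_zero] at h2
    refine ⟨θ, hθ, hinj _ (hstab θ hθ) _ hθ ?_⟩
    rw [hσ θ, ← h2]
    have h3 : ((r : ZMod q) ^ q) = (r : ZMod q) := ZMod.pow_card _
    have h4 := congrArg (algebraMap (ZMod q) (AlgebraicClosure (ZMod q))) h3
    rw [map_pow, map_intCast] at h4
    exact h4
  · rintro ⟨θ, hθ, hfix⟩
    have h1 : φ θ ^ q = φ θ := by rw [← hσ θ, hfix]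
    obtain ⟨c, hc⟩ := fixed_frob (φ θ) h1
    obtain ⟨r, hr⟩ := ZMod.intCast_surjective c
    refine ⟨r, ?_⟩
    rw [← ZMod.intCast_zmod_eq_zero_iff_dvd]
    apply (algebraMap (ZMod q) (AlgebraicClosure (ZMod q))).injective
    rw [map_intCast, map_zero]
    have h2 : φ θ = ((r : ℤ) : AlgebraicClosure (ZMod q)) := by
      rw [← hc, ← hr, map_intCast]
    have h3 := (hroot θ).1 hθ
    have h4 : φ (aeval θ f) = 0 := by rw [h3, map_zero]
    rw [Polynomial.aeval_def, Polynomial.hom_eval₂, h2] at h4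
    have h5 := Polynomial.hom_eval₂ f (RingHom.id ℤ) (Int.castRingHom (AlgebraicClosure (ZMod q))) r
    have h6 : φ.comp (algebraMap ℤ (𝓞 L)) =
        (Int.castRingHom (AlgebraicClosure (ZMod q))).comp (RingHom.id ℤ) := RingHom.ext_int _ _
    rw [h6] at h4
    exact h5.trans h4

/-- a Galois number field in which a given separable polynomial splits -/
theorem exists_L (F : ℚ[X]) (hF : F.Separable) : ∃ (L : Type) (_ : Field L) (_ : NumberField L)
    (_ : IsGalois ℚ L), (F.map (algebraMap ℚ L)).Splits := by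
  have hspl : IsSplittingField ℚ F.SplittingField F := by
    convert IsSplittingField.splittingField F
    exact Subsingleton.elim _ _
  have h2 : IsGalois ℚ F.SplittingField := IsGalois.of_separable_splitting_field (p := F) hF
  have h3 : NumberField F.SplittingField :=
    { to_charZero := inferInstance, to_finiteDimensional := inferInstance }
  exact ⟨F.SplittingField, inferInstance, h3, h2, hspl.splits'⟩

/-- the primes modulo which `f` has no root have positive density -/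
theorem dens_noroot (f : ℤ[X]) (hf : f.Monic) (hirr : Irreducible f) (hdeg : 2 ≤ f.natDegree) :
    ∃ δ : ℝ, 0 < δ ∧ Tendsto (M fun q => open scoped Classical in
      if ¬ ∃ r : ℤ, (q : ℤ) ∣ f.eval r then 1 else 0) atTop (𝓝 δ) := by
  classical
  have hFirr : Irreducible (f.map (Int.castRingHom ℚ)) :=
    (Polynomial.IsPrimitive.Int.irreducible_iff_irreducible_map_cast hf.isPrimitive).1 hirr
  obtain ⟨L, _, _, _, hs0⟩ := exists_L _ hFirr.separable
  have hs : (f.map (Int.castRingHom L)).Splits := by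
    rw [Polynomial.map_map] at hs0
    have h2 : (algebraMap ℚ L).comp (Int.castRingHom ℚ) = Int.castRingHom L :=
      RingHom.ext_int _ _
    rw [h2] at hs0
    exact hs0
  obtain ⟨t, ht⟩ := split_ring f hf L hs
  obtain ⟨σ, hσ⟩ := exists_sigma f hf hirr hdeg L hs
  obtain ⟨D0, hD0, hinj⟩ := inj_red (L := L) t.toFinset
  set C : Finset Gal(L/ℚ) := Finset.univ.filter fun τ => ∀ θ ∈ t, τ • θ ≠ θ with hC
  have hroot : ∀ θ ∈ t, aeval θ f = 0 := by
    intro θ hθ
    have h2 := congrArg (Polynomial.eval θ) ht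
    rw [Polynomial.eval_map, Polynomial.eval_multiset_prod, Multiset.map_map] at h2
    rw [Polynomial.aeval_def]
    have h3 : algebraMap ℤ (𝓞 L) = Int.castRingHom (𝓞 L) := RingHom.ext_int _ _
    rw [h3, h2, Multiset.prod_eq_zero_iff, Multiset.mem_map]
    exact ⟨θ, hθ, by simp⟩
  have hσC : σ ∈ C := by
    rw [hC, Finset.mem_filter]
    exact ⟨Finset.mem_univ _, fun θ hθ => hσ θ (hroot θ hθ)⟩
  refine ⟨(C.card : ℝ) / Nat.card Gal(L/ℚ), ?_, ?_⟩
  · have h1 : 0 < C.card := Finset.card_pos.2 ⟨σ, hσC⟩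
    have h2 : 0 < Nat.card Gal(L/ℚ) := Nat.card_pos
    positivity
  · refine dens_of_frob L C (fun q => ¬ ∃ r : ℤ, (q : ℤ) ∣ f.eval r) D0 hD0 ?_
    intro q hq hqD φ τ hτ
    rw [root_iff f L t ht φ (fun x hx y hy => hinj q hqD φ x (Multiset.mem_toFinset.2 hx) y
      (Multiset.mem_toFinset.2 hy)) τ hτ, hC, Finset.mem_filter]
    push Not
    exact ⟨fun h => h.2, fun h => ⟨Finset.mem_univ _, h⟩⟩

/-- **Job DE** -/
theorem main : ∀ f : ℤ[X], f.Monic → Irreducible f → 2 ≤ f.natDegree → ∀ (K : ℕ) (ε : ℝ), 0 < ε →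
    ∃ N₀ : ℕ, ∀ N : ℕ, N₀ ≤ N →
      (Set.ncard {D : ℕ | 1 ≤ D ∧ D ≤ N ∧ ∀ p : ℕ, p.Prime → p ∣ D → K < p →
        ∃ r : ℤ, (p : ℤ) ∣ f.eval r} : ℝ) ≤ ε * N := by
  classical
  intro f hf hirr hdeg K ε hε
  obtain ⟨δ, hδ, hlim⟩ := dens_noroot f hf hirr hdeg
  have h1 : ∀ᶠ N : ℕ in atTop, δ / 2 < M (fun q => if ¬ ∃ r : ℤ, (q : ℤ) ∣ f.eval r then 1 else 0) N :=
    hlim.eventually_const_lt (by linarith)
  obtain ⟨a, ha⟩ := h1.exists_forall_of_atTop
  have h2 := sieve (fun q => ¬ ∃ r : ℤ, (q : ℤ) ∣ f.eval r) K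
    (div_of_dens (fun q => ¬ ∃ r : ℤ, (q : ℤ) ∣ f.eval r) (δ := δ / 2) (by linarith) a
      (fun N hN => by
        have h3 := (ha N hN).le
        unfold M pr at h3
        rw [Finset.sum_ite, Finset.sum_const_zero, add_zero, Finset.sum_const, nsmul_eq_mul, mul_one] at h3
        rcases Nat.eq_zero_or_pos (Nat.primeCounting N) with h0 | h0
        · rw [h0]
          simp
        · rw [le_div_iff₀ (by exact_mod_cast h0)] at h3
          exact h3) K) hε
  simpa only [not_not] using h2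

end Pool.Agent.K7.H90.DE
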